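import Pool.Agent.Lib.MP_c7af3c_ag.SHARP.H54.Root

/-!
# MP_c7af3c_ag, project EDGE, module ULTRA, part 3: heights of elements (helper52)
-/

set_option autoImplicit false

namespace Pool.Agent.Edge.H52

open WithZero Pool.Agent.Gen Pool.Agent.Sharp Pool.Agent.Sharp.H54

section

variable {L : Type} [Field L] (S : PlaceSys L)

/-- the height of an element -/
noncomputable def he (y : L) : ℤ := S.ht (n := 1) ![1, y]

/-- the size `max(1, |y|)` -/
noncomputable def mm (y : L) (p : S.V) : ℤᵐ⁰ := max 1 (S.v p y)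

theorem mx_eq (y : L) (p : S.V) : S.mx (n := 1) ![1, y] p = mm S y p := by
  unfold mm
  apply le_antisymm
  · refine Finset.sup'_le _ _ fun j _ => ?_
    fin_cases j
    · simp
    · simp
  · refine max_le ?_ ?_
    · have := S.le_mx (n := 1) ![1, y] p 0
      simpa using this
    · have := S.le_mx (n := 1) ![1, y] p 1
      simpa using this

theorem one_le_mm (y : L) (p : S.V) : 1 ≤ mm S y p := le_max_left _ _

theorem mm_ne (y : L) (p : S.V) : mm S y p ≠ 0 :=
  (lt_of_lt_of_le zero_lt_one (one_le_mm S y p)).ne'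

theorem log_mm_nonneg (y : L) (p : S.V) : 0 ≤ log (mm S y p) := by
  have h1 := one_le_mm S y p
  have : exp (0 : ℤ) ≤ exp (log (mm S y p)) := by
    rw [exp_log (mm_ne S y p), exp_zero]; exact h1
  exact WithZero.exp_le_exp.1 this

theorem v_le_mm (y : L) (p : S.V) : S.v p y ≤ mm S y p := le_max_right _ _

theorem v_le_exp (y : L) (p : S.V) : S.v p y ≤ exp (log (mm S y p)) := by
  rw [exp_log (mm_ne S y p)]
  exact v_le_mm S y p

theorem mm_fin (hS : S.IsProd) (y : L) : {p | log (mm S y p) ≠ 0}.Finite := by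
  have hx : (![1, y] : Fin 2 → L) ≠ 0 := fun h => one_ne_zero (congrFun h 0)
  have h := S.finite_mx (n := 1) ![1, y] hS.fin hx
  refine h.subset fun p hp => ?_
  simp only [Set.mem_ofPred_eq, ne_eq] at hp ⊢
  intro h1
  apply hp
  rw [← mx_eq, h1, log_one]

theorem he_eq (y : L) : he S y = ∑ᶠ p, (S.w p : ℤ) * log (mm S y p) := by
  unfold he PlaceSys.ht
  exact finsum_congr fun p => by rw [mx_eq]

theorem he_nonneg (y : L) : 0 ≤ he S y := by
  rw [he_eq]
  exact finsum_nonneg fun p => mul_nonneg (by positivity) (log_mm_nonneg S y p)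

/-- an upper bound of the height from local bounds -/
theorem he_le (hS : S.IsProd) (y : L) (g : S.V → ℤ) (hg0 : ∀ p, 0 ≤ g p)
    (hgf : {p | g p ≠ 0}.Finite) (h : ∀ p, S.v p y ≤ exp (g p)) :
    he S y ≤ ∑ᶠ p, (S.w p : ℤ) * g p := by
  rw [he_eq]
  refine fs_mono S.w (mm_fin S hS y) hgf fun p => ?_
  have h1 : mm S y p ≤ exp (g p) := by
    refine max_le ?_ (h p)
    rw [← exp_zero]
    exact WithZero.exp_le_exp.2 (hg0 p)
  rw [← exp_log (mm_ne S y p)] at h1
  exact WithZero.exp_le_exp.1 h1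

theorem fs_sum {V J : Type} [Fintype J] (w : V → ℕ) (f : J → V → ℤ)
    (hf : ∀ j, {p | f j p ≠ 0}.Finite) :
    {p | ∑ j, f j p ≠ 0}.Finite ∧
    ∑ᶠ p, (w p : ℤ) * ∑ j, f j p = ∑ j, ∑ᶠ p, (w p : ℤ) * f j p := by
  classical
  constructor
  · refine (Set.finite_iUnion hf).subset fun p hp => ?_
    simp only [Set.mem_iUnion, Set.mem_ofPred_eq]
    by_contra hc
    push Not at hc
    exact hp (Finset.sum_eq_zero fun j _ => hc j)
  · rw [← finsum_sum_comm]
    · exact finsum_congr fun p => Finset.mul_sum _ _ _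
    · intro j _
      exact fs_supp w (hf j)

theorem exp_sum' {J : Type} (s : Finset J) (f : J → ℤ) :
    (exp (∑ j ∈ s, f j) : ℤᵐ⁰) = ∏ j ∈ s, exp (f j) := by
  classical
  induction s using Finset.induction_on with
  | empty => rw [Finset.sum_empty, Finset.prod_empty, exp_zero]
  | insert a s ha ih => rw [Finset.sum_insert ha, Finset.prod_insert ha, exp_add, ih]

theorem exp_mul' (N : ℕ) (a : ℤ) : (exp ((N : ℤ) * a) : ℤᵐ⁰) = exp a ^ N := by
  rw [← exp_nsmul, nsmul_eq_mul]

/-- the height of a product of sizes -/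
theorem he_le_prod (hS : S.IsProd) (B : S.V → ℕ) (hB : {p | B p ≠ 0}.Finite) {J : Type}
    [Fintype J] (b : J → L) (N : ℕ) (y : L)
    (h : ∀ p, S.v p y ≤ exp (B p : ℤ) ^ N * ∏ j, mm S (b j) p ^ N) :
    he S y ≤ N * tot S B + N * ∑ j, he S (b j) := by
  have hBf : {p | (B p : ℤ) ≠ 0}.Finite := by
    refine hB.subset fun p hp => ?_
    simpa using hp
  have h2 := fs_sum S.w (fun j p => log (mm S (b j) p)) fun j => mm_fin S hS (b j)
  have h3 := he_le S hS y (fun p => (N : ℤ) * B p + N * ∑ j, log (mm S (b j) p))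
    (fun p => add_nonneg (by positivity) (mul_nonneg (by positivity)
      (Finset.sum_nonneg fun j _ => log_mm_nonneg S (b j) p)))
    (fin_add (fin_mul hBf _) (fin_mul h2.1 _)) ?_
  · refine h3.trans (le_of_eq ?_)
    rw [fs_add S.w (fin_mul hBf _) (fin_mul h2.1 _), fs_mul S.w hBf, fs_mul S.w h2.1, h2.2]
    unfold tot
    congr 2
    refine Finset.sum_congr rfl fun j _ => ?_
    rw [he_eq]
  · intro p
    refine (h p).trans (le_of_eq ?_)
    rw [exp_add, exp_mul', exp_mul', exp_sum', ← Finset.prod_pow]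
    congr 1
    refine Finset.prod_congr rfl fun j _ => ?_
    rw [exp_log (mm_ne S (b j) p)]

/-- the height of a vector -/
theorem ht_le_sum (hS : S.IsProd) {n : ℕ} (x : Fin (n + 1) → L) (j0 : Fin (n + 1))
    (hj0 : x j0 = 1) : S.ht x ≤ ∑ j, he S (x j) := by
  have hx : x ≠ 0 := fun h => one_ne_zero (by rw [← hj0, h]; rfl)
  have h2 := fs_sum S.w (fun j p => log (mm S (x j) p)) fun j => mm_fin S hS (x j)
  have h3 : S.ht x ≤ ∑ᶠ p, (S.w p : ℤ) * ∑ j, log (mm S (x j) p) := by
    refine fs_mono S.w (log_fin (S.finite_mx x hS.fin hx)) h2.1 fun p => ?_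
    obtain ⟨j, hj⟩ := S.exists_mx x p
    have h4 : S.mx x p ≤ exp (log (mm S (x j) p)) := by
      rw [← hj]
      exact v_le_exp S (x j) p
    have h5 : log (S.mx x p) ≤ log (mm S (x j) p) := by
      rw [← exp_log (S.mx_ne_zero x hx p)] at h4
      exact WithZero.exp_le_exp.1 h4
    exact h5.trans (Finset.single_le_sum (f := fun j => log (mm S (x j) p))
      (fun j _ => log_mm_nonneg S (x j) p) (Finset.mem_univ j))
  refine h3.trans (le_of_eq ?_)
  rw [h2.2]
  exact Finset.sum_congr rfl fun j _ => (he_eq S (x j)).symm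

/-- the height of a root -/
theorem he_root (hS : S.IsProd) {N : ℕ} (c : Fin N → L) (hc : c ≠ 0) (z : L)
    (hz : ∑ i, c i * z ^ (i : ℕ) = 0) : he S z ≤ ∑ i, he S (c i) := by
  classical
  set Q : Polynomial L := ∑ i, Polynomial.C (c i) * Polynomial.X ^ (i : ℕ) with hQ
  have hco : ∀ k, Q.coeff k = if h : k < N then c ⟨k, h⟩ else 0 := by
    intro k
    rw [hQ, Polynomial.finsetSum_coeff]
    simp only [Polynomial.coeff_C_mul, Polynomial.coeff_X_pow]
    split_ifs with h
    · rw [Finset.sum_eq_single (⟨k, h⟩ : Fin N)]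
      · simp
      · intro i _ hi
        rw [if_neg, mul_zero]
        intro h1
        exact hi (Fin.ext h1.symm)
      · intro h1
        exact absurd (Finset.mem_univ _) h1
    · refine Finset.sum_eq_zero fun i _ => ?_
      rw [if_neg, mul_zero]
      intro h1
      exact h (h1 ▸ i.2)
  have hQ0 : Q ≠ 0 := by
    intro h0
    apply hc
    funext i
    have := hco i
    rw [h0, Polynomial.coeff_zero, dif_pos i.2] at this
    exact this.symm
  have hev : Q.eval z = 0 := by
    rw [hQ, Polynomial.eval_finsetSum, ← hz]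
    refine Finset.sum_congr rfl fun i _ => ?_
    simp
  have h2 := fs_sum S.w (fun j p => log (mm S (c j) p)) fun j => mm_fin S hS (c j)
  have h3 := rooth S hS Q hQ0 z hev (fun p => ∑ j, log (mm S (c j) p)) h2.1 ?_
  · refine h3.trans (le_of_eq ?_)
    rw [h2.2]
    exact Finset.sum_congr rfl fun j _ => (he_eq S (c j)).symm
  · intro p k
    rw [hco]
    split_ifs with h
    · refine (v_le_exp S _ p).trans (WithZero.exp_le_exp.2 ?_)
      exact Finset.single_le_sum (f := fun j => log (mm S (c j) p))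
        (fun j _ => log_mm_nonneg S (c j) p) (Finset.mem_univ _)
    · rw [map_zero]
      exact zero_le

end

end Pool.Agent.Edge.H52
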