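import Pool.Agent.Lib.MP_c7af3c_ag.EDGE.H52.UProd
import Pool.Agent.Lib.MP_c7af3c_ag.EDGE.H52.Hts

/-!
# MP_c7af3c_ag, project EDGE, module ULTRA, part 5: the field of elements of bounded height
(helper52)
-/

set_option autoImplicit false

namespace Pool.Agent.Edge.H52

open Filter WithZero Pool.Agent.Gen Pool.Agent.Sharp Pool.Agent.Sharp.H54

section

variable {L : ℕ → Type} [∀ ν, Field (L ν)] (S : ∀ ν, PlaceSys (L ν))
  (B : ∀ ν, (S ν).V → ℕ)

/-- bounded height -/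
def HBd (u : ∀ ν, L ν) : Prop :=
  ∃ C : ℕ, ∀ᶠ ν in UF, he (S ν) (u ν) ≤ C * tot (S ν) (B ν)

variable {S B}

theorem HBd.congr {u w : ∀ ν, L ν} (hu : HBd S B u) (h : ∀ᶠ ν in UF, u ν = w ν) :
    HBd S B w := by
  obtain ⟨C, hC⟩ := hu
  refine ⟨C, ?_⟩
  filter_upwards [hC, h] with ν h1 h2
  rw [← h2]
  exact h1

theorem one_le_expB (ν : ℕ) (p : (S ν).V) (N : ℕ) : (1 : ℤᵐ⁰) ≤ exp (B ν p : ℤ) ^ N := by
  refine one_le_pow_of_one_le' ?_ N
  rw [← exp_zero]
  exact WithZero.exp_le_exp.2 (by positivity)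

theorem hbd_of_le (hS : ∀ ν, (S ν).IsProd) (hB : ∀ ν, {p | B ν p ≠ 0}.Finite) {J : Type}
    [Fintype J] (b : J → ∀ ν, L ν) (hb : ∀ j, HBd S B (b j)) (N : ℕ) (y : ∀ ν, L ν)
    (h : ∀ᶠ ν in UF, ∀ p, (S ν).v p (y ν) ≤ exp (B ν p : ℤ) ^ N *
      ∏ j, mm (S ν) (b j ν) p ^ N) : HBd S B y := by
  choose C hC using hb
  refine ⟨N + N * ∑ j, C j, ?_⟩
  filter_upwards [h, Filter.eventually_all.2 hC] with ν h1 h2
  refine (he_le_prod (S ν) (hS ν) (B ν) (hB ν) (fun j => b j ν) N (y ν) h1).trans ?_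
  have h3 : ∑ j, he (S ν) (b j ν) ≤ ∑ j, (C j : ℤ) * tot (S ν) (B ν) :=
    Finset.sum_le_sum fun j _ => h2 j
  have h4 : (N : ℤ) * ∑ j, he (S ν) (b j ν) ≤ N * ∑ j, (C j : ℤ) * tot (S ν) (B ν) :=
    mul_le_mul_of_nonneg_left h3 (by positivity)
  refine (add_le_add_right h4 _).trans (le_of_eq ?_)
  rw [← Finset.sum_mul]
  push_cast
  ring

theorem hbd_of_le_one (hS : ∀ ν, (S ν).IsProd) (hB : ∀ ν, {p | B ν p ≠ 0}.Finite)
    (y : ∀ ν, L ν) (h : ∀ ν p, (S ν).v p (y ν) ≤ 1) : HBd S B y := by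
  refine hbd_of_le hS hB (J := Empty) (fun j => j.elim) (fun j => j.elim) 0 y ?_
  refine Eventually.of_forall fun ν p => ?_
  simpa using h ν p

theorem HBd.root (hS : ∀ ν, (S ν).IsProd) {N : ℕ} (b : Fin N → ∀ ν, L ν)
    (hb : ∀ j, HBd S B (b j)) (y : ∀ ν, L ν)
    (h : ∀ᶠ ν in UF, (∃ j, b j ν ≠ 0) ∧ ∑ i, b i ν * y ν ^ (i : ℕ) = 0) : HBd S B y := by
  choose C hC using hb
  refine ⟨∑ j, C j, ?_⟩
  filter_upwards [h, Filter.eventually_all.2 hC] with ν h1 h2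
  refine (he_root (S ν) (hS ν) (fun j => b j ν) ?_ (y ν) h1.2).trans ?_
  · obtain ⟨j, hj⟩ := h1.1
    exact fun h0 => hj (congrFun h0 j)
  · push_cast
    rw [Finset.sum_mul]
    exact Finset.sum_le_sum fun j _ => h2 j

variable (S B)

/-- the field of the elements of bounded height -/
noncomputable def kk (hS : ∀ ν, (S ν).IsProd) (hB : ∀ ν, {p | B ν p ≠ 0}.Finite) :
    Subfield (Om L) where
  carrier := {y | ∃ u, qm L u = y ∧ HBd S B u}
  mul_mem' := by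
    rintro _ _ ⟨u, rfl, hu⟩ ⟨w, rfl, hw⟩
    refine ⟨u * w, map_mul _ _ _, ?_⟩
    refine hbd_of_le hS hB (J := Fin 2) ![u, w] ?_ 1 (u * w) ?_
    · intro j
      fin_cases j
      · exact hu
      · exact hw
    · refine Eventually.of_forall fun ν p => ?_
      rw [Fin.prod_univ_two, pow_one, pow_one, pow_one]
      change (S ν).v p (u ν * w ν) ≤ exp (B ν p : ℤ) * (mm (S ν) (u ν) p * mm (S ν) (w ν) p)
      rw [map_mul]
      have h1 := one_le_expB (S := S) (B := B) ν p 1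
      rw [pow_one] at h1
      calc (S ν).v p (u ν) * (S ν).v p (w ν) ≤ mm (S ν) (u ν) p * mm (S ν) (w ν) p :=
            mul_le_mul' (v_le_mm _ _ _) (v_le_mm _ _ _)
        _ = 1 * (mm (S ν) (u ν) p * mm (S ν) (w ν) p) := (one_mul _).symm
        _ ≤ _ := mul_le_mul' h1 le_rfl
  one_mem' := ⟨1, map_one _, hbd_of_le_one hS hB 1 fun ν p => (map_one ((S ν).v p)).le⟩
  zero_mem' := ⟨0, map_zero _, hbd_of_le_one hS hB 0 fun ν p => by
    change (S ν).v p 0 ≤ 1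
    rw [map_zero]
    exact zero_le⟩
  add_mem' := by
    rintro _ _ ⟨u, rfl, hu⟩ ⟨w, rfl, hw⟩
    refine ⟨u + w, map_add _ _ _, ?_⟩
    refine hbd_of_le hS hB (J := Fin 2) ![u, w] ?_ 1 (u + w) ?_
    · intro j
      fin_cases j
      · exact hu
      · exact hw
    · refine Eventually.of_forall fun ν p => ?_
      rw [Fin.prod_univ_two, pow_one, pow_one, pow_one]
      change (S ν).v p (u ν + w ν) ≤ exp (B ν p : ℤ) * (mm (S ν) (u ν) p * mm (S ν) (w ν) p)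
      have h1 := one_le_expB (S := S) (B := B) ν p 1
      rw [pow_one] at h1
      have h2 : (S ν).v p (u ν + w ν) ≤ mm (S ν) (u ν) p * mm (S ν) (w ν) p := by
        refine ((S ν).v p |>.map_add _ _).trans (max_le ?_ ?_)
        · calc (S ν).v p (u ν) = (S ν).v p (u ν) * 1 := (mul_one _).symm
            _ ≤ _ := mul_le_mul' (v_le_mm _ _ _) (one_le_mm _ _ _)
        · calc (S ν).v p (w ν) = 1 * (S ν).v p (w ν) := (one_mul _).symm
            _ ≤ _ := mul_le_mul' (one_le_mm _ _ _) (v_le_mm _ _ _)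
      calc (S ν).v p (u ν + w ν) ≤ mm (S ν) (u ν) p * mm (S ν) (w ν) p := h2
        _ = 1 * (mm (S ν) (u ν) p * mm (S ν) (w ν) p) := (one_mul _).symm
        _ ≤ _ := mul_le_mul' h1 le_rfl
  neg_mem' := by
    rintro _ ⟨u, rfl, hu⟩
    refine ⟨-u, map_neg _ _, ?_⟩
    refine hbd_of_le hS hB (J := Fin 1) (fun _ => u) (fun _ => hu) 1 (-u) ?_
    refine Eventually.of_forall fun ν p => ?_
    rw [Fin.prod_univ_one, pow_one, pow_one]
    change (S ν).v p (- u ν) ≤ exp (B ν p : ℤ) * mm (S ν) (u ν) p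
    have h1 := one_le_expB (S := S) (B := B) ν p 1
    rw [pow_one] at h1
    rw [Valuation.map_neg]
    calc (S ν).v p (u ν) = 1 * (S ν).v p (u ν) := (one_mul _).symm
      _ ≤ _ := mul_le_mul' h1 (v_le_mm _ _ _)
  inv_mem' := by
    rintro _ ⟨u, rfl, hu⟩
    refine ⟨fun ν => (u ν)⁻¹, qm_inv u, ?_⟩
    rcases uf_em (fun ν => u ν = 0) with h | h
    · refine hu.congr ?_
      filter_upwards [h] with ν hν
      rw [hν, inv_zero]
    · refine HBd.root (N := 2) hS ![-1, u] ?_ _ ?_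
      · intro j
        fin_cases j
        · refine hbd_of_le_one hS hB (-1) fun ν p => ?_
          change (S ν).v p (-1) ≤ 1
          rw [Valuation.map_neg, map_one]
        · exact hu
      · filter_upwards [h] with ν hν
        refine ⟨⟨1, hν⟩, ?_⟩
        rw [Fin.sum_univ_two]
        change (-1 : L ν) * (u ν)⁻¹ ^ 0 + u ν * (u ν)⁻¹ ^ 1 = 0
        rw [pow_zero, pow_one, mul_inv_cancel₀ hν]
        ring

variable {S B}

theorem mem_kk {hS : ∀ ν, (S ν).IsProd} {hB : ∀ ν, {p | B ν p ≠ 0}.Finite} {u : ∀ ν, L ν} :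
    qm L u ∈ kk S B hS hB ↔ HBd S B u := by
  constructor
  · rintro ⟨w, hw, h⟩
    exact h.congr (qm_eq.1 hw)
  · intro h
    exact ⟨u, rfl, h⟩

/-- the field is relatively algebraically closed -/
theorem kk_alg {hS : ∀ ν, (S ν).IsProd} {hB : ∀ ν, {p | B ν p ≠ 0}.Finite} (z : Om L)
    (p : Polynomial (Om L)) (hp : p ≠ 0) (hk : ∀ i, p.coeff i ∈ kk S B hS hB)
    (hz : p.eval z = 0) : z ∈ kk S B hS hB := by
  classical
  obtain ⟨w, rfl⟩ := qm_surj L z
  rw [mem_kk]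
  choose b hb using fun i => qm_surj L (p.coeff i)
  refine HBd.root (N := p.natDegree + 1) hS (fun i => b i) (fun i => ?_) w ?_
  · rw [← mem_kk (hS := hS) (hB := hB), hb]
    exact hk _
  · have h1 : ∀ᶠ ν in UF, b p.natDegree ν ≠ 0 := by
      rw [← qm_ne, hb]
      exact Polynomial.leadingCoeff_ne_zero.2 hp
    have h2 : qm L (∑ i : Fin (p.natDegree + 1), b i * w ^ (i : ℕ)) = 0 := by
      rw [map_sum, ← hz, Polynomial.eval_eq_sum_range, Finset.sum_range]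
      refine Finset.sum_congr rfl fun i _ => ?_
      rw [map_mul, map_pow, hb]
    filter_upwards [h1, qm_zero.1 h2] with ν h3 h4
    refine ⟨⟨Fin.last _, h3⟩, ?_⟩
    rw [Finset.sum_apply] at h4
    exact h4

end

end Pool.Agent.Edge.H52
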