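import Pool.Agent.Lib.MP_c7af3c_ag.EDGE.H52.Los
import Pool.Agent.Lib.MP_c7af3c_ag.EDGE.H52.Bdd

/-!
# MP_c7af3c_ag, project EDGE, module ULTRA (helper52)
-/

set_option autoImplicit false

namespace Pool.Agent.Edge.H52

open Filter MvPolynomial WithZero Pool.Agent.Gen Pool.Agent.Sharp Pool.Agent.Lines.H75

/-- a counterexample to the height inequality with the constant `A` -/
structure CE (n c : ℕ) (d : Fin c → ℕ) (j0 : Fin (n + 1)) (A : ℕ) where
  L : Type
  fld : Field L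
  chz : CharZero L
  D : DSys L n c d
  comm : Lines.Comm D
  x : Fin (n + 1) → L
  hj0 : x j0 = 1
  h0 : ∀ m, eval x (D.F m) = 0
  hno : NoLine D x
  S : PlaceSys L
  hS : S.IsProd
  B : S.V → ℕ
  hB : BD S D B
  lt : (A : ℤ) * tot S B < S.ht x

theorem tot_nn {L : Type} [Field L] (S : PlaceSys L) (B : S.V → ℕ) : 0 ≤ tot S B :=
  finsum_nonneg fun p => by positivity

theorem exists_CE {n c : ℕ} {d : Fin c → ℕ} {j0 : Fin (n + 1)} (h : ¬ HBE n c d j0) (A : ℕ) :
    Nonempty (CE n c d j0 A) := by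
  by_contra hc
  apply h
  refine ⟨A, fun L _ _ D hcomm x hj0 h0 hno S hS B hB => ?_⟩
  by_contra hlt
  exact hc ⟨⟨L, inferInstance, inferInstance, D, hcomm, x, hj0, h0, hno, S, hS, B, hB,
    not_le.1 hlt⟩⟩

/-- a finite choice is constant on a large set -/
theorem uf_choice {Z : Type} [Finite Z] {P : ℕ → Z → Prop} (h : ∀ᶠ ν in UF, ∃ z, P ν z) :
    ∃ z, ∀ᶠ ν in UF, P ν z := by
  by_contra hc
  have h1 : ∀ z, ∀ᶠ ν in UF, ¬ P ν z := fun z => uf_not.2 fun h2 => hc ⟨z, h2⟩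
  obtain ⟨ν, ⟨z, hz⟩, h2⟩ := (h.and (Filter.eventually_all.2 h1)).exists
  exact h2 z hz

instance finTI (n c : ℕ) (d : Fin c → ℕ) : Finite (TI n c d) := by
  have h : {a : Fin c × (Fin (n + 1) →₀ ℕ) | a.2.degree + 1 = d a.1}.Finite := by
    refine (Set.finite_univ.prod (Finsupp.finite_of_degree_le (σ := Fin (n + 1))
      (∑ m, d m))).subset ?_
    rintro ⟨m, I⟩ hI
    refine ⟨Set.mem_univ _, ?_⟩
    have h1 : d m ≤ ∑ m, d m :=
      Finset.single_le_sum (f := d) (fun _ _ => Nat.zero_le _) (Finset.mem_univ m)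
    have h2 : I.degree + 1 = d m := hI
    change I.degree ≤ ∑ m, d m
    omega
  exact h.to_subtype

section

variable {L : ℕ → Type} [∀ ν, Field (L ν)]

/-- lifting of a polynomial over the ultraproduct -/
theorem lift_poly {σ : Type} (G : MvPolynomial σ (Om L)) (g : (σ →₀ ℕ) → ∀ ν, L ν)
    (hg : ∀ I, qm L (g I) = coeff I G) :
    map (qm L) (∑ I ∈ G.support, monomial I (g I)) = G ∧
      (∀ ν, ∀ I ∈ G.support,
        coeff I (map (ev L ν) (∑ I ∈ G.support, monomial I (g I))) = g I ν) ∧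
      ∀ ν I, I ∉ G.support →
        coeff I (map (ev L ν) (∑ I ∈ G.support, monomial I (g I))) = 0 := by
  classical
  refine ⟨?_, ?_, ?_⟩
  · rw [map_sum]
    conv_rhs => rw [G.as_sum]
    refine Finset.sum_congr rfl fun I _ => ?_
    rw [map_monomial, hg]
  · intro ν I h
    rw [coeff_map, coeff_sum, Finset.sum_eq_single I]
    · rw [coeff_monomial, if_pos rfl]
      rfl
    · intro J _ hJ
      rw [coeff_monomial, if_neg hJ]
    · intro h1
      exact absurd h h1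
  · intro ν I h
    rw [coeff_map, coeff_sum, Finset.sum_eq_zero]
    · exact map_zero _
    · intro J hJ
      rw [coeff_monomial, if_neg]
      rintro rfl
      exact h hJ

/-- the monomial tuple over the product -/
noncomputable def muR (L : ℕ → Type) [∀ ν, Field (L ν)] {n c : ℕ} {d : Fin c → ℕ}
    (a : TI n c d) : TR L n c := Pi.single a.1.1 (monomial a.1.2 1)

theorem tq_muR {n c : ℕ} {d : Fin c → ℕ} (a : TI n c d) : tq (muR L a) = mu (Om L) a := by
  classical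
  funext m
  change map (qm L) (muR L a m) = mu (Om L) a m
  unfold muR mu
  by_cases h : m = a.1.1
  · subst h
    rw [Pi.single_eq_same, Pi.single_eq_same, map_monomial, map_one]
  · rw [Pi.single_eq_of_ne h, Pi.single_eq_of_ne h, map_zero]

theorem tc_muR {n c : ℕ} {d : Fin c → ℕ} (a : TI n c d) (ν : ℕ) :
    tc (muR L a) ν = mu (L ν) a := by
  classical
  funext m
  change map (ev L ν) (muR L a m) = mu (L ν) a m
  unfold muR mu
  by_cases h : m = a.1.1
  · subst h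
    rw [Pi.single_eq_same, Pi.single_eq_same, map_monomial, map_one]
  · rw [Pi.single_eq_of_ne h, Pi.single_eq_of_ne h, map_zero]

theorem IT_mu {K : Type} [Field K] {n c : ℕ} {d : Fin c → ℕ} (a : TI n c d) :
    IT d (mu K a) := by
  classical
  constructor
  · intro m I hI
    unfold mu at hI
    by_cases h : m = a.1.1
    · subst h
      rw [Pi.single_eq_same, coeff_monomial] at hI
      split_ifs at hI with h1
      · rw [← h1]
        exact a.2
      · exact absurd rfl hI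
    · rw [Pi.single_eq_of_ne h, coeff_zero] at hI
      exact absurd rfl hI
  · intro m I
    unfold mu
    by_cases h : m = a.1.1
    · subst h
      rw [Pi.single_eq_same, coeff_monomial]
      split_ifs
      · exact ⟨1, by simp⟩
      · exact ⟨0, by simp⟩
    · rw [Pi.single_eq_of_ne h]
      exact ⟨0, by simp⟩

end

section

variable {n c e : ℕ} {d : Fin c → ℕ} {L : ℕ → Type} [∀ ν, Field (L ν)]
  (D : ∀ ν, DSys (L ν) n c d) (x : Fin (n + 1) → ∀ ν, L ν)
  (j0 : Fin (n + 1)) (S : ∀ ν, PlaceSys (L ν)) (hS : ∀ ν, (S ν).IsProd)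
  (B : ∀ ν, (S ν).V → ℕ) (hBD : ∀ ν, BD (S ν) (D ν) (B ν))

theorem edge_hno (hno : ∀ ν, NoLine (D ν) (cv x ν)) : NoLine (omSys D) (qv x) := by
  classical
  intro y hy
  obtain ⟨yR, hyR⟩ : ∃ yR : Fin (n + 1) → ∀ ν, L ν, y = qv yR := by
    choose g hg using fun j => qm_surj L (y j)
    exact ⟨g, funext fun j => (hg j).symm⟩
  subst hyR
  by_contra hc
  push Not at hc
  have h1 : LinearIndependent (Om L) (fun i => fun j => qm L ((![x, yR] : Fin 2 → _) i j)) := by
    convert hy using 1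
    funext i
    fin_cases i <;> rfl
  have h2 := li_om' _ h1
  have h3 : ∀ m, ∀ᶠ ν in UF, lineP ((D ν).F m) (cv x ν) (cv yR ν) = 0 := by
    intro m
    have h4 : (lineR x (FR D m) yR).map (qm L) = 0 := by
      rw [← map_lineR]
      exact hc m
    have h5 : ∀ k : Fin ((lineR x (FR D m) yR).natDegree + 1),
        ∀ᶠ ν in UF, (lineR x (FR D m) yR).coeff k ν = 0 := by
      intro k
      rw [← qm_zero, ← Polynomial.coeff_map, h4, Polynomial.coeff_zero]
    filter_upwards [Filter.eventually_all.2 h5] with ν hν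
    have h6 := map_lineR x (FR D m) yR (ev L ν)
    rw [map_ev_FR] at h6
    change lineP ((D ν).F m) (fun j => ev L ν (x j)) (fun j => ev L ν (yR j)) = 0
    rw [h6]
    ext k
    rw [Polynomial.coeff_map, Polynomial.coeff_zero]
    by_cases hk : k < (lineR x (FR D m) yR).natDegree + 1
    · exact hν ⟨k, hk⟩
    · rw [Polynomial.coeff_eq_zero_of_natDegree_lt (by omega)]
      rfl
  obtain ⟨ν, h7, h8⟩ := (h2.and (Filter.eventually_all.2 h3)).exists
  obtain ⟨m, hm⟩ := hno ν (cv yR ν) (by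
    convert h7 using 1
    funext i
    fin_cases i <;> rfl)
  exact hm (h8 m)

theorem edge_w0 (h : ∀ᶠ ν in UF, W0 (D ν) (cv x ν)) : W0 (omSys D) (qv x) := by
  classical
  intro p q
  have h1 : ∀ ν, ∃ a : L ν, W0 (D ν) (cv x ν) → a • cv x ν = WT (D ν) (cv x ν) p q := by
    intro ν
    by_cases hν : W0 (D ν) (cv x ν)
    · obtain ⟨a, ha⟩ := Submodule.mem_span_singleton.1 (hν p q)
      exact ⟨a, fun _ => ha⟩
    · exact ⟨0, fun h => absurd h hν⟩
  choose a ha using h1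
  refine Submodule.mem_span_singleton.2 ⟨qm L a, ?_⟩
  funext r
  rw [WT_om, Pi.smul_apply, smul_eq_mul]
  change qm L a * qm L (x r) = _
  rw [← map_mul, qm_eq]
  filter_upwards [h] with ν hν
  exact congrFun (ha ν hν) r

theorem edge_pairs (ε : (Unit ⊕ (Fin e ⊕ Fin e)) ⊕ Fin c ≃ Fin (n + 1))
    (h : ∀ᶠ ν in UF, ∃ (a a' : Fin e → TI n c d) (i i' : Fin e → Fin (n + 1)),
      TT (D ν) (cv x ν) j0 ε (fun j => mu (L ν) (a j) + mu (L ν) (a' j)) i i' ≠ 0) :
    ∃ (A : Fin e → TP (Om L) n c) (i i' : Fin e → Fin (n + 1)), (∀ j, IT d (A j)) ∧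
      TT (omSys D) (qv x) j0 ε A i i' ≠ 0 := by
  have h1 : ∀ᶠ ν in UF, ∃ z : ((Fin e → TI n c d) × (Fin e → TI n c d)) ×
      ((Fin e → Fin (n + 1)) × (Fin e → Fin (n + 1))),
      TT (D ν) (cv x ν) j0 ε (fun j => mu (L ν) (z.1.1 j) + mu (L ν) (z.1.2 j))
        z.2.1 z.2.2 ≠ 0 := by
    filter_upwards [h] with ν hν
    obtain ⟨a, a', i, i', h2⟩ := hν
    exact ⟨((a, a'), (i, i')), h2⟩
  obtain ⟨z, hz⟩ := uf_choice h1
  refine ⟨fun j => mu (Om L) (z.1.1 j) + mu (Om L) (z.1.2 j), z.2.1, z.2.2,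
    fun j => (IT_mu _).add (IT_mu _), ?_⟩
  have h3 := TT_om D x j0 ε (fun j => muR L (z.1.1 j) + muR L (z.1.2 j)) z.2.1 z.2.2
  have h4 : (fun j => tq (muR L (z.1.1 j) + muR L (z.1.2 j))) =
      fun j => mu (Om L) (z.1.1 j) + mu (Om L) (z.1.2 j) := by
    funext j m
    change map (qm L) (muR L (z.1.1 j) m + muR L (z.1.2 j) m) = _
    rw [map_add]
    exact congrArg₂ (· + ·) (congrFun (tq_muR (L := L) (z.1.1 j)) m)
      (congrFun (tq_muR (L := L) (z.1.2 j)) m)
  have h5 : ∀ ν, (fun j => tc (muR L (z.1.1 j) + muR L (z.1.2 j)) ν) =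
      fun j => mu (L ν) (z.1.1 j) + mu (L ν) (z.1.2 j) := by
    intro ν
    funext j m
    change map (ev L ν) (muR L (z.1.1 j) m + muR L (z.1.2 j) m) = _
    rw [map_add]
    exact congrArg₂ (· + ·) (congrFun (tc_muR (L := L) (z.1.1 j) ν) m)
      (congrFun (tc_muR (L := L) (z.1.2 j) ν) m)
  rw [h4] at h3
  rw [h3, qm_ne]
  filter_upwards [hz] with ν hν
  rw [h5 ν]
  exact hν

include hBD in
theorem edge_kF (hB : ∀ ν, {p | B ν p ≠ 0}.Finite) (m : Fin c) (I : Fin (n + 1) →₀ ℕ) :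
    coeff I ((omSys D).F m) ∈ kk S B hS hB := by
  rw [omSys_F, coeff_map, coeff_FR, mem_kk]
  refine hbd_of_le hS hB (J := Empty) (fun j => j.elim) (fun j => j.elim) 1 _ ?_
  refine Eventually.of_forall fun ν p => ?_
  simpa using (hBD ν).F p m I

theorem edge_tau (hB : ∀ ν, {p | B ν p ≠ 0}.Finite)
    (ε : (Unit ⊕ (Fin e ⊕ Fin e)) ⊕ Fin c ≃ Fin (n + 1))
    (htau : ∀ ν, ∀ A : Fin e → TP (L ν) n c, (∀ j, IT d (A j)) →
      ∀ (i i' : Fin e → Fin (n + 1)) s a b b' p,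
      (S ν).v p (tau (D ν) (cv x ν) j0 ε A i i' s a b b') ≤ exp (B ν p : ℤ) ^ (2 * n + 2))
    (A : Fin e → TP (Om L) n c) (hA : ∀ j, IT d (A j)) (i i' : Fin e → Fin (n + 1))
    (s : Fin e) (a b b' : Fin (n + 1)) :
    tau (omSys D) (qv x) j0 ε A i i' s a b b' ∈ kk S B hS hB := by
  classical
  choose z hz using fun j => (hA j).2
  set AR : Fin e → TR L n c := fun j m => ∑ I ∈ (A j m).support,
    monomial I ((z j m I : ℤ) : ∀ ν, L ν) with hAR
  have h1 : ∀ j m, _ := fun j m => lift_poly (A j m) (fun I => ((z j m I : ℤ) : ∀ ν, L ν))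
    (fun I => by rw [map_intCast, hz])
  have h2 : A = fun j => tq (AR j) := by
    funext j m
    exact (h1 j m).1.symm
  rw [h2, tau_om, mem_kk]
  refine hbd_of_le hS hB (J := Empty) (fun j => j.elim) (fun j => j.elim) (2 * n + 2) _ ?_
  refine Eventually.of_forall fun ν p => ?_
  have h3 : ∀ j, IT d (tc (AR j) ν) := by
    intro j
    constructor
    · intro m I hI
      refine (hA j).1 m I ?_
      by_contra hc
      exact hI ((h1 j m).2.2 ν I (by rw [mem_support_iff]; exact not_not.2 hc))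
    · intro m I
      by_cases hI : I ∈ (A j m).support
      · refine ⟨z j m I, ?_⟩
        rw [(h1 j m).2.1 ν I hI]
        rfl
      · refine ⟨0, ?_⟩
        rw [(h1 j m).2.2 ν I hI, Int.cast_zero]
  have h4 := htau ν (fun j => tc (AR j) ν) h3 i i' s a b b' p
  simpa using h4

theorem edge_xk (hB : ∀ ν, {p | B ν p ≠ 0}.Finite) (hj0 : ∀ ν, x j0 ν = 1)
    (hlt : ∀ ν : ℕ, (ν : ℤ) * tot (S ν) (B ν) < (S ν).ht (cv x ν)) :
    ∃ i, qv x i ∉ kk S B hS hB := by
  by_contra hc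
  push Not at hc
  have h1 : ∀ i, HBd S B (x i) := fun i => mem_kk.1 (hc i)
  choose C hC using h1
  obtain ⟨ν, h2, h3⟩ := ((Filter.eventually_all.2 hC).and (uf_ge (∑ i, C i))).exists
  have h4 := ht_le_sum (S ν) (hS ν) (cv x ν) j0 (hj0 ν)
  have h5 : ∑ j, he (S ν) (cv x ν j) ≤ ∑ j, (C j : ℤ) * tot (S ν) (B ν) :=
    Finset.sum_le_sum fun j _ => h2 j
  rw [← Finset.sum_mul] at h5
  have h6 : (∑ j, (C j : ℤ)) * tot (S ν) (B ν) ≤ (ν : ℤ) * tot (S ν) (B ν) :=
    mul_le_mul_of_nonneg_right (by exact_mod_cast h3) (tot_nn _ _)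
  have := hlt ν
  linarith

theorem one_le_prod' {J : Type} (s : Finset J) (f : J → ℤᵐ⁰) (hf : ∀ j, 1 ≤ f j) :
    1 ≤ ∏ j ∈ s, f j := by
  classical
  induction s using Finset.induction_on with
  | empty => rw [Finset.prod_empty]
  | insert a s ha ih =>
    rw [Finset.prod_insert ha]
    calc (1 : ℤᵐ⁰) = 1 * 1 := (one_mul 1).symm
      _ ≤ _ := mul_le_mul' (hf a) ih

theorem le_prod' {J : Type} (s : Finset J) (f : J → ℤᵐ⁰) (hf : ∀ j, 1 ≤ f j) (j : J)
    (hj : j ∈ s) : f j ≤ ∏ j ∈ s, f j := by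
  classical
  rw [← Finset.mul_prod_erase s f hj]
  calc f j = f j * 1 := (mul_one _).symm
    _ ≤ _ := mul_le_mul' le_rfl (one_le_prod' _ f hf)

include hBD in
theorem edge_sb [∀ ν, CharZero (L ν)] (hSb : SblStatement) (hB : ∀ ν, {p | B ν p ≠ 0}.Finite)
    (hj0 : ∀ ν, x j0 ν = 1) (t : Fin 3 → Fin (n + 1)) (P : Fin 3 → Fin (n + 1) → Om L)
    (hP : ∀ i f, P i f ∈ kk S B hS hB) (hx : ∀ f, qv x f = ∑ i, P i f * qv x (t i))
    (G : TP (Om L) n c) (hG : ∀ m I, coeff I (G m) ∈ kk S B hS hB)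
    (hdeg : ∀ m, ∀ I ∈ (G m).support, I.degree + 2 = d m) (s : Fin (n + 1) → Om L)
    (hs : ∀ i j, VT (omSys D) (qv x) (mulT G (X (t i) * X (t j))) -
      (qv x (t i) * qv x (t j)) • s ∈ Submodule.span (Om L) {qv x}) (q r : Fin (n + 1)) :
    plu (qv x) s q r ∈ kk S B hS hB := by
  classical
  obtain ⟨PR, hPR⟩ : ∃ PR : Fin 3 → Fin (n + 1) → ∀ ν, L ν, P = fun i f => qm L (PR i f) := by
    choose g hg using fun i => fun f => qm_surj L (P i f)
    exact ⟨g, by funext i f; exact (hg i f).symm⟩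
  obtain ⟨sR, rfl⟩ : ∃ sR : Fin (n + 1) → ∀ ν, L ν, s = qv sR := by
    choose g hg using fun j => qm_surj L (s j)
    exact ⟨g, funext fun j => (hg j).symm⟩
  choose g hg using fun m => fun I => qm_surj L (coeff I (G m))
  set GR : TR L n c := fun m => ∑ I ∈ (G m).support, monomial I (g m I) with hGR
  have h1 : ∀ m, _ := fun m => lift_poly (G m) (g m) (hg m)
  choose a ha using fun i => fun j => Submodule.mem_span_singleton.1 (hs i j)
  choose aR haR using fun i => fun j => qm_surj L (a i j)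
  -- the equations at almost all places
  have e1 : ∀ f, ∀ᶠ ν in UF, x f ν = ∑ i, PR i f ν * x (t i) ν := by
    intro f
    have h2 : qm L (x f) = qm L (∑ i, PR i f * x (t i)) := by
      rw [map_sum]
      refine (hx f).trans (Finset.sum_congr rfl fun i _ => ?_)
      rw [hPR, map_mul]
    filter_upwards [qm_eq.1 h2] with ν hν
    rw [hν, Finset.sum_apply]
    rfl
  have e2 : ∀ i j f, ∀ᶠ ν in UF, VT (D ν) (cv x ν) (mulT (tc GR ν) (X (t i) * X (t j))) f -
      x (t i) ν * x (t j) ν * sR f ν = aR i j ν * x f ν := by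
    intro i j f
    have h2 : mulT G (X (t i) * X (t j)) =
        tq (L := L) (fun m => GR m * (X (t i) * X (t j))) := by
      funext m
      change G m * (X (t i) * X (t j)) =
        MvPolynomial.map (qm L) (GR m * (X (t i) * X (t j)))
      rw [map_mul, map_mul, map_X, map_X, (h1 m).1]
    have h3 : ∀ ν, mulT (tc GR ν) (X (t i) * X (t j)) =
        tc (L := L) (fun m => GR m * (X (t i) * X (t j))) ν := by
      intro ν
      funext m
      change MvPolynomial.map (ev L ν) (GR m) * (X (t i) * X (t j)) =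
        MvPolynomial.map (ev L ν) (GR m * (X (t i) * X (t j)))
      rw [map_mul, map_mul, map_X, map_X]
    have h4 := congrFun (ha i j) f
    rw [Pi.smul_apply, smul_eq_mul, Pi.sub_apply, Pi.smul_apply, smul_eq_mul, h2, VT_om,
      ← haR] at h4
    change qm L (aR i j) * qm L (x f) = _ - qm L (x (t i)) * qm L (x (t j)) * qm L (sR f) at h4
    rw [← map_mul, ← map_mul, ← map_mul, ← map_sub, qm_eq] at h4
    filter_upwards [h4] with ν hν
    rw [h3 ν]
    exact hν.symm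
  -- the bounded elements
  have hb1 : ∀ i f, HBd S B (PR i f) := by
    intro i f
    have h2 := hP i f
    rw [hPR] at h2
    exact mem_kk.1 h2
  have hb2 : ∀ m I, HBd S B (g m I) := by
    intro m I
    rw [← mem_kk (hS := hS) (hB := hB), hg]
    exact hG m I
  have hgoal : plu (qv x) (qv sR) q r = qm L (x q * sR r - x r * sR q) := by
    unfold plu
    rw [map_sub, map_mul, map_mul]
  rw [hgoal, mem_kk]
  refine hbd_of_le hS hB (J := (Fin 3 × Fin (n + 1)) ⊕ (Σ m : Fin c, (G m).support))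
    (Sum.elim (fun q => PR q.1 q.2) fun q => g q.1 q.2.1) ?_ 2 _ ?_
  · rintro (q | q)
    · exact hb1 _ _
    · exact hb2 _ _
  filter_upwards [Filter.eventually_all.2 e1, Filter.eventually_all.2 fun i =>
    Filter.eventually_all.2 fun j => Filter.eventually_all.2 (e2 i j)] with ν h5 h6
  intro p
  set al : ℤᵐ⁰ := ∏ q : Fin 3 × Fin (n + 1), mm (S ν) (PR q.1 q.2 ν) p with hal
  set ga : ℤᵐ⁰ := ∏ q : (Σ m : Fin c, (G m).support), mm (S ν) (g q.1 q.2.1 ν) p with hga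
  have hal1 : 1 ≤ al := one_le_prod' _ _ fun q => one_le_mm _ _ _
  have hga1 : 1 ≤ ga := one_le_prod' _ _ fun q => one_le_mm _ _ _
  have hM1 : (1 : ℤᵐ⁰) ≤ exp (B ν p : ℤ) := by
    rw [← exp_zero]
    exact WithZero.exp_le_exp.2 (by positivity)
  have key := hSb (L ν) n c d (D ν) (cv x ν) j0 (hj0 ν) t (fun i f => PR i f ν) h5 (tc GR ν)
    ?_ (cv sR ν) ?_ ((S ν).v p) (exp (B ν p : ℤ)) al ga hM1 hal1
    (fun m I hI f hf => (hBD ν).del p m I hI f hf) ?_ ?_ q r
  · have h7 : plu (cv x ν) (cv sR ν) q r = (x q * sR r - x r * sR q) ν := rfl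
    rw [h7] at key
    refine key.trans ?_
    rw [Fintype.prod_sum_type]
    simp only [Sum.elim_inl, Sum.elim_inr, Finset.prod_pow]
    rw [← hal, ← hga]
    have h8 : ga ≤ ga ^ 2 := by
      calc ga = ga * 1 := (mul_one _).symm
        _ ≤ ga * ga := mul_le_mul' le_rfl hga1
        _ = ga ^ 2 := (sq ga).symm
    have h9 : (exp (B ν p : ℤ) : ℤᵐ⁰) ≤ exp (B ν p : ℤ) ^ 2 := by
      calc (exp (B ν p : ℤ) : ℤᵐ⁰) = exp (B ν p : ℤ) * 1 := (mul_one _).symm
        _ ≤ exp (B ν p : ℤ) * exp (B ν p : ℤ) := mul_le_mul' le_rfl hM1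
        _ = _ := (sq _).symm
    calc exp (B ν p : ℤ) * ga * al ^ 2 ≤ exp (B ν p : ℤ) ^ 2 * ga ^ 2 * al ^ 2 :=
          mul_le_mul' (mul_le_mul' h9 h8) le_rfl
      _ = _ := by rw [mul_assoc, mul_comm (ga ^ 2)]
  · intro m I hI
    refine hdeg m I ?_
    by_contra hc
    exact (mem_support_iff.1 hI) ((h1 m).2.2 ν I hc)
  · intro i j
    refine Submodule.mem_span_singleton.2 ⟨aR i j ν, ?_⟩
    funext f
    rw [Pi.smul_apply, smul_eq_mul, Pi.sub_apply, Pi.smul_apply, smul_eq_mul]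
    exact (h6 i j f).symm
  · intro i f
    exact (v_le_mm (S ν) (PR i f ν) p).trans
      (le_prod' Finset.univ (fun q : Fin 3 × Fin (n + 1) => mm (S ν) (PR q.1 q.2 ν) p)
        (fun q => one_le_mm _ _ _) (i, f) (Finset.mem_univ _))
  · intro m I
    by_cases hI : I ∈ (G m).support
    · rw [(h1 m).2.1 ν I hI]
      exact (v_le_mm (S ν) (g m I ν) p).trans
        (le_prod' Finset.univ (fun q : (Σ m : Fin c, (G m).support) =>
          mm (S ν) (g q.1 q.2.1 ν) p) (fun q => one_le_mm _ _ _) ⟨m, ⟨I, hI⟩⟩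
          (Finset.mem_univ _))
    · rw [(h1 m).2.2 ν I hI, map_zero]
      exact zero_le

end

theorem ultra_aux (hT : TauStatement) (hSb : SblStatement) {n c e : ℕ} {d : Fin c → ℕ}
    (j0 : Fin (n + 1)) (hnum : 2 * n + 1 = c + ∑ m, d m + e) (hn : n = 2 * e + c)
    (ε : (Unit ⊕ (Fin e ⊕ Fin e)) ⊕ Fin c ≃ Fin (n + 1))
    {L : ℕ → Type} [∀ ν, Field (L ν)] [∀ ν, CharZero (L ν)] (D : ∀ ν, DSys (L ν) n c d)
    (x : Fin (n + 1) → ∀ ν, L ν) (S : ∀ ν, PlaceSys (L ν)) (B : ∀ ν, (S ν).V → ℕ)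
    (hS : ∀ ν, (S ν).IsProd) (hBD : ∀ ν, BD (S ν) (D ν) (B ν)) (hj0 : ∀ ν, x j0 ν = 1)
    (h0 : ∀ ν m, eval (cv x ν) ((D ν).F m) = 0) (hno : ∀ ν, NoLine (D ν) (cv x ν))
    (hlt : ∀ ν : ℕ, (ν : ℤ) * tot (S ν) (B ν) < (S ν).ht (cv x ν))
    (hev : ∀ᶠ ν in UF, W0 (D ν) (cv x ν) ∧ ∃ (a a' : Fin e → TI n c d)
      (i i' : Fin e → Fin (n + 1)),
      TT (D ν) (cv x ν) j0 ε (fun j => mu (L ν) (a j) + mu (L ν) (a' j)) i i' ≠ 0) :
    EdgeP (kk S B hS fun ν => (hBD ν).fin) (omSys D) (qv x) j0 e ε := by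
  have hB : ∀ ν, {p | B ν p ≠ 0}.Finite := fun ν => (hBD ν).fin
  constructor
  · change qm L (x j0) = 1
    rw [← map_one (qm L)]
    congr 1
    funext ν
    exact hj0 ν
  · intro m
    rw [omSys_F, eval_om, qm_zero]
    refine Eventually.of_forall fun ν => ?_
    rw [map_ev_FR]
    exact h0 ν m
  · exact fun m I => edge_kF D S hS B hBD hB m I
  · exact fun z p hp hk hz => kk_alg z p hp hk hz
  · exact edge_xk x j0 S hS B hB hj0 hlt
  · exact edge_hno D x hno
  · exact edge_w0 D x (hev.mono fun ν h => h.1)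
  · exact edge_pairs D x j0 ε (hev.mono fun ν h => h.2)
  · intro A hA i i' s a b b'
    refine edge_tau D x j0 S hS B hB ε ?_ A hA i i' s a b b'
    intro ν A hA i i' s a b b' p
    exact hT (L ν) n c e d (D ν) (cv x ν) j0 (hj0 ν) (h0 ν) (by omega) ε A hA i i' s a b b'
      (S ν) (B ν) (hBD ν) p
  · intro t P hP hx G hG hdeg s hs q r
    exact edge_sb D x j0 S hS B hBD hSb hB hj0 t P hP hx G hG hdeg s hs q r

/-- Module ULTRA. -/
theorem ultra : UltraStatement := by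
  intro hD hT hSb n c e d j0 he1 hd hnum hn hM ε hHB
  obtain ⟨C, hC⟩ := hD n c e d he1 hd hnum hn hM ε
  obtain ⟨E⟩ : Nonempty (∀ A, CE n c d j0 A) := ⟨fun A => (exists_CE hHB A).some⟩
  let iL : ∀ ν, Field ((fun ν => (E ν).L) ν) := fun ν => (E ν).fld
  have iC : ∀ ν, CharZero ((fun ν => (E ν).L) ν) := fun ν => (E ν).chz
  refine ⟨Om (fun ν => (E ν).L), inferInstance, inferInstance, _, _, _,
    ultra_aux hT hSb j0 hnum hn ε (L := fun ν => (E ν).L) (fun ν => (E ν).D)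
      (fun j ν => (E ν).x j) (fun ν => (E ν).S) (fun ν => (E ν).B) (fun ν => (E ν).hS)
      (fun ν => (E ν).hB) (fun ν => (E ν).hj0) (fun ν => (E ν).h0) (fun ν => (E ν).hno)
      (fun ν => (E ν).lt) ?_⟩
  filter_upwards [uf_ge C] with ν hν
  rcases @hC (E ν).L (E ν).fld (E ν).chz (E ν).D (E ν).comm (E ν).x j0 (E ν).hj0 (E ν).h0
    (E ν).hno (E ν).S (E ν).hS (E ν).B (E ν).hB with h | h
  · exfalso
    have h1 : (C : ℤ) * @tot _ (E ν).fld (E ν).S (E ν).B ≤
        (ν : ℤ) * @tot _ (E ν).fld (E ν).S (E ν).B :=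
      mul_le_mul_of_nonneg_right (by exact_mod_cast hν) (@tot_nn _ (E ν).fld _ _)
    have h2 := (E ν).lt
    exact absurd (h2.trans_le (h.trans h1)) (lt_irrefl _)
  · exact h

end Pool.Agent.Edge.H52
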