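import Pool.Agent.Lib.MP_c7af3c_ag.EDGE.H52.UProd

/-!
# MP_c7af3c_ag, project EDGE, module ULTRA, part 2: linear independence (helper52)
-/

set_option autoImplicit false

namespace Pool.Agent.Edge.H52

open Filter MvPolynomial WithZero Pool.Agent.Gen

section

variable {L : ℕ → Type} [∀ ν, Field (L ν)]

/-! ### linear independence -/

/-- Los' theorem for linear independence -/
theorem li_om {ι : Type} [Finite ι] {m : Type} [Finite m] (u : ι → m → ∀ ν, L ν)
    (h : ∀ᶠ ν in UF, LinearIndependent (L ν) (fun i => fun j => u i j ν)) :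
    LinearIndependent (Om L) (fun i => fun j => qm L (u i j)) := by
  classical
  have := Fintype.ofFinite ι
  rw [Fintype.linearIndependent_iff]
  intro g hg i0
  by_contra hne
  obtain ⟨c, hc⟩ : ∃ c : ι → ∀ ν, L ν, ∀ i, qm L (c i) = g i :=
    ⟨fun i => (qm_surj L (g i)).choose, fun i => (qm_surj L (g i)).choose_spec⟩
  rw [← hc i0, ← Ne, qm_ne] at hne
  have h1 : ∀ j, ∀ᶠ ν in UF, ∑ i, c i ν * u i j ν = 0 := by
    intro j
    have h2 := congrFun hg j
    rw [Finset.sum_apply] at h2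
    simp only [Pi.smul_apply, smul_eq_mul, Pi.zero_apply] at h2
    have h3 : qm L (∑ i, c i * u i j) = 0 := by
      rw [map_sum, ← h2]
      refine Finset.sum_congr rfl fun i _ => ?_
      rw [map_mul, hc]
    filter_upwards [qm_zero.1 h3] with ν hν
    rw [← hν, Finset.sum_apply]
    rfl
  obtain ⟨ν, h4, h5, h6⟩ := (h.and (hne.and (Filter.eventually_all.2 h1))).exists
  refine h5 (Fintype.linearIndependent_iff.1 h4 (fun i => c i ν) ?_ i0)
  funext j
  rw [Finset.sum_apply]
  exact h6 j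

/-- the converse -/
theorem li_om' {ι : Type} [Finite ι] {m : Type} (u : ι → m → ∀ ν, L ν)
    (h : LinearIndependent (Om L) (fun i => fun j => qm L (u i j))) :
    ∀ᶠ ν in UF, LinearIndependent (L ν) (fun i => fun j => u i j ν) := by
  classical
  have := Fintype.ofFinite ι
  rcases uf_em (fun ν => LinearIndependent (L ν) (fun i => fun j => u i j ν)) with h1 | h1
  · exact h1
  exfalso
  -- coefficients of a relation with a coefficient one
  have h2 : ∀ ν, ¬ LinearIndependent (L ν) (fun i => fun j => u i j ν) →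
      ∃ (g : ι → L ν) (i0 : ι), ∑ i, g i • (fun j => u i j ν) = 0 ∧ g i0 ≠ 0 := by
    intro ν hν
    rw [Fintype.linearIndependent_iff] at hν
    push Not at hν
    obtain ⟨g, hg, i0, hi0⟩ := hν
    exact ⟨g, i0, hg, hi0⟩
  have h3 : ∀ ν, ∃ (g : ι → L ν), ¬ LinearIndependent (L ν) (fun i => fun j => u i j ν) →
      (∃ i0 : ι, ∑ i, g i • (fun j => u i j ν) = 0 ∧ g i0 ≠ 0) := by
    intro ν
    by_cases hν : LinearIndependent (L ν) (fun i => fun j => u i j ν)
    · exact ⟨0, fun h => absurd hν h⟩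
    · obtain ⟨g, i0, hg⟩ := h2 ν hν
      exact ⟨g, fun _ => ⟨i0, hg⟩⟩
  choose g hg using h3
  have h4 : ∀ᶠ ν in UF, ∃ i0 : ι, g ν i0 ≠ 0 := by
    filter_upwards [h1] with ν hν
    obtain ⟨i0, -, h⟩ := hg ν hν
    exact ⟨i0, h⟩
  have h5 : ∀ i, qm L (fun ν => g ν i) = 0 := by
    refine Fintype.linearIndependent_iff.1 h _ ?_
    funext j
    rw [Finset.sum_apply]
    simp only [Pi.smul_apply, smul_eq_mul, Pi.zero_apply]
    have h6 : ∑ i, qm L (fun ν => g ν i) * qm L (u i j) =
        qm L (∑ i, (fun ν => g ν i) * u i j) := by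
      rw [map_sum]
      exact Finset.sum_congr rfl fun i _ => (map_mul _ _ _).symm
    rw [h6, qm_zero]
    filter_upwards [h1] with ν hν
    obtain ⟨i0, h7, -⟩ := hg ν hν
    have h8 := congrFun h7 j
    rw [Finset.sum_apply] at h8 ⊢
    exact h8
  have h6 : ∀ᶠ ν in UF, ∀ i, g ν i = 0 := Filter.eventually_all.2 fun i => qm_zero.1 (h5 i)
  obtain ⟨ν, ⟨i0, h7⟩, h8⟩ := (h4.and h6).exists
  exact h7 (h8 i0)

end

end Pool.Agent.Edge.H52
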