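import Pool.Agent.Lib.MP_c7af3c_ag.EDGE.Iface
import Pool.Agent.Lib.MP_c7af3c_ag.EDGE.H52.UVal

/-!
# MP_c7af3c_ag, project EDGE, module ULTRA, part 4: the columns in the ultraproduct (helper52)
-/

set_option autoImplicit false

namespace Pool.Agent.Edge.H52

open Filter MvPolynomial WithZero Pool.Agent.Gen Pool.Agent.Sharp Pool.Agent.Lines.H75

section

variable {L : ℕ → Type} [∀ ν, Field (L ν)]

/-- the component `ν` -/
abbrev ev (L : ℕ → Type) [∀ ν, Field (L ν)] (ν : ℕ) : (∀ ν, L ν) →+* L ν := Pi.evalRingHom L ν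

theorem ev_apply (ν : ℕ) (f : ∀ ν, L ν) : ev L ν f = f ν := rfl

/-! ### polynomials over the product -/

/-- the polynomial over the product ring -/
noncomputable def piP {σ : Type} (T : Finset (σ →₀ ℕ)) (P : ∀ ν, MvPolynomial σ (L ν)) :
    MvPolynomial σ (∀ ν, L ν) := ∑ I ∈ T, monomial I (fun ν => coeff I (P ν))

theorem coeff_piP {σ : Type} (T : Finset (σ →₀ ℕ)) (P : ∀ ν, MvPolynomial σ (L ν))
    (hT : ∀ ν, (P ν).support ⊆ T) (I : σ →₀ ℕ) :
    coeff I (piP T P) = fun ν => coeff I (P ν) := by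
  classical
  unfold piP
  rw [coeff_sum]
  by_cases hI : I ∈ T
  · rw [Finset.sum_eq_single I]
    · rw [coeff_monomial, if_pos rfl]
    · intro J _ hJ
      rw [coeff_monomial, if_neg hJ]
    · intro h
      exact absurd hI h
  · rw [Finset.sum_eq_zero]
    · funext ν
      symm
      by_contra hc
      exact hI (hT ν (mem_support_iff.2 hc))
    · intro J hJ
      rw [coeff_monomial, if_neg]
      rintro rfl
      exact hI hJ

theorem map_ev_piP {σ : Type} (T : Finset (σ →₀ ℕ)) (P : ∀ ν, MvPolynomial σ (L ν))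
    (hT : ∀ ν, (P ν).support ⊆ T) (ν : ℕ) : map (ev L ν) (piP T P) = P ν := by
  ext I
  rw [coeff_map, coeff_piP T P hT]
  rfl

/-- the exponents of degree `k` -/
noncomputable def Tdeg (n k : ℕ) : Finset (Fin (n + 1) →₀ ℕ) := by
  classical
  exact Finset.finsuppAntidiag Finset.univ k

theorem mem_Tdeg {n k : ℕ} {I : Fin (n + 1) →₀ ℕ} : I ∈ Tdeg n k ↔ I.degree = k := by
  classical
  unfold Tdeg
  rw [Finset.mem_finsuppAntidiag]
  rw [Finsupp.degree_eq_sum]
  simp

theorem supp_Tdeg {n k : ℕ} {K : Type} [Field K] {P : MvPolynomial (Fin (n + 1)) K}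
    (hP : P.IsHomogeneous k) : P.support ⊆ Tdeg n k := by
  intro I hI
  rw [mem_Tdeg]
  have h := hP (mem_support_iff.1 hI)
  rw [Finsupp.degree_eq_weight_one]
  exact h

/-! ### the system -/

variable {n c : ℕ} {d : Fin c → ℕ} (D : ∀ ν, DSys (L ν) n c d)

/-- the forms over the product -/
noncomputable def FR (m : Fin c) : MvPolynomial (Fin (n + 1)) (∀ ν, L ν) :=
  piP (Tdeg n (d m)) fun ν => (D ν).F m

theorem map_ev_FR (m : Fin c) (ν : ℕ) : map (ev L ν) (FR D m) = (D ν).F m :=
  map_ev_piP _ _ (fun ν => supp_Tdeg ((D ν).hom m)) ν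

theorem coeff_FR (m : Fin c) (I : Fin (n + 1) →₀ ℕ) :
    coeff I (FR D m) = fun ν => coeff I ((D ν).F m) :=
  coeff_piP _ _ (fun ν => supp_Tdeg ((D ν).hom m)) I

/-- the system over the ultraproduct -/
noncomputable def omSys : DSys (Om L) n c d where
  F m := map (qm L) (FR D m)
  hom m := by
    refine (IsHomogeneous.map ?_ (qm L))
    refine IsHomogeneous.sum _ _ _ fun I hI => ?_
    exact isHomogeneous_monomial _ (mem_Tdeg.1 hI)
  del m I := omD fun ν => (D ν).del m I
  dual := by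
    intro m I m' J hI hJ
    rw [coeff_map, coeff_FR]
    refine (omD_qm (fun ν => (D ν).del m I) (fun ν => coeff J ((D ν).F m'))).trans ?_
    have h : (fun ν => (D ν).del m I (coeff J ((D ν).F m'))) =
        if m = m' ∧ I = J then (1 : ∀ ν, L ν) else 0 := by
      funext ν
      rw [(D ν).dual m I m' J hI hJ]
      split_ifs <;> rfl
    rw [h]
    split_ifs
    · exact map_one _
    · exact map_zero _

theorem omSys_F (m : Fin c) : (omSys D).F m = map (qm L) (FR D m) := rfl

/-- the vector of classes -/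
noncomputable abbrev qv {m : Type} (x : m → ∀ ν, L ν) : m → Om L := fun j => qm L (x j)

/-- the component of a vector -/
abbrev cv {m : Type} (x : m → ∀ ν, L ν) (ν : ℕ) : m → L ν := fun j => x j ν

theorem V_om (x : Fin (n + 1) → ∀ ν, L ν) (m : Fin c)
    (G : MvPolynomial (Fin (n + 1)) (∀ ν, L ν)) (p : Fin (n + 1)) :
    (omSys D).V (qv x) m (map (qm L) G) p =
      qm L fun ν => (D ν).V (cv x ν) m (map (ev L ν) G) p := by
  induction G using MvPolynomial.induction_on' with
  | monomial I a =>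
    rw [map_monomial, DSys.V_monomial]
    have h : (fun ν => (D ν).V (cv x ν) m (map (ev L ν) (monomial I a)) p) =
        a * fun ν => (D ν).del m I (x p ν) := by
      funext ν
      rw [map_monomial, DSys.V_monomial]
      rfl
    rw [h, map_mul]
    congr 1
    exact omD_qm _ _
  | add P Q hP hQ =>
    rw [map_add, map_add, Pi.add_apply, hP, hQ, ← map_add]
    congr 1
    funext ν
    rw [map_add, map_add]
    rfl

/-- a tuple over the product -/
abbrev TR (L : ℕ → Type) (n c : ℕ) [∀ ν, Field (L ν)] : Type :=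
  Fin c → MvPolynomial (Fin (n + 1)) (∀ ν, L ν)

/-- the tuple over the ultraproduct -/
noncomputable abbrev tq (G : TR L n c) : TP (Om L) n c := fun m => map (qm L) (G m)

/-- the component of the tuple -/
noncomputable abbrev tc (G : TR L n c) (ν : ℕ) : TP (L ν) n c := fun m => map (ev L ν) (G m)

theorem VT_om (x : Fin (n + 1) → ∀ ν, L ν) (G : TR L n c) (p : Fin (n + 1)) :
    VT (omSys D) (qv x) (tq G) p = qm L fun ν => VT (D ν) (cv x ν) (tc G ν) p := by
  rw [VT_apply, Finset.sum_apply]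
  have h : (fun ν => VT (D ν) (cv x ν) (tc G ν) p) =
      ∑ m, fun ν => (D ν).V (cv x ν) m (map (ev L ν) (G m)) p := by
    funext ν
    rw [VT_apply, Finset.sum_apply, Finset.sum_apply]
  rw [h, map_sum]
  exact Finset.sum_congr rfl fun m _ => V_om D x m (G m) p

/-- `X_q F_p` over the product -/
theorem WT_om (x : Fin (n + 1) → ∀ ν, L ν) (p q r : Fin (n + 1)) :
    WT (omSys D) (qv x) p q r = qm L fun ν => WT (D ν) (cv x ν) p q r := by
  classical
  have h1 : (fun m => X q * pderiv p ((omSys D).F m)) =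
      tq (L := L) (fun m => X q * pderiv p (FR D m)) := by
    funext m
    rw [omSys_F]
    simp only [map_mul, map_X, pderiv_map]
  have h2 : ∀ ν, (fun m => X q * pderiv p ((D ν).F m)) =
      tc (L := L) (fun m => X q * pderiv p (FR D m)) ν := by
    intro ν
    funext m
    rw [← map_ev_FR D m ν]
    simp only [map_mul, map_X, pderiv_map]
  unfold WT
  rw [Pi.add_apply, h1, VT_om]
  have h3 : (fun ν => (cv x ν q • Pi.single (M := fun _ => L ν) p 1 +
      VT (D ν) (cv x ν) fun m => X q * pderiv p ((D ν).F m)) r) =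
      x q * (Pi.single (M := fun _ => ∀ ν, L ν) p 1 : Fin (n + 1) → ∀ ν, L ν) r +
        fun ν => VT (D ν) (cv x ν) (tc (L := L) (fun m => X q * pderiv p (FR D m)) ν) r := by
    funext ν
    rw [Pi.add_apply, h2 ν, Pi.add_apply, Pi.mul_apply, Pi.smul_apply, smul_eq_mul]
    congr 2
    rw [Pi.single_apply, Pi.single_apply]
    split_ifs <;> rfl
  rw [h3, map_add, map_mul]
  congr 1
  rw [Pi.smul_apply, smul_eq_mul, Pi.single_apply, Pi.single_apply]
  congr 1
  split_ifs
  · exact (map_one _).symm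
  · exact (map_zero _).symm

/-! ### the determinants -/

variable (x : Fin (n + 1) → ∀ ν, L ν) (j0 : Fin (n + 1))

/-- the linear form over the product -/
noncomputable def lfR (i : Fin (n + 1)) : MvPolynomial (Fin (n + 1)) (∀ ν, L ν) :=
  X i - C (x i) * X j0

theorem map_lfR (i : Fin (n + 1)) : map (qm L) (lfR x j0 i) = lf (qv x) j0 i := by
  unfold lfR lf
  simp only [map_sub, map_mul, map_X, map_C]

theorem map_lfR' (i : Fin (n + 1)) (ν : ℕ) :
    map (ev L ν) (lfR x j0 i) = lf (cv x ν) j0 i := by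
  unfold lfR lf
  simp only [map_sub, map_mul, map_X, map_C]
  rfl

/-- all the columns over the product -/
noncomputable def colR {e : ℕ} (A : Fin e → TR L n c) (i i' : Fin e → Fin (n + 1)) :
    (Unit ⊕ (Fin e ⊕ Fin e)) ⊕ Fin c → Fin (n + 1) → ∀ ν, L ν :=
  Sum.elim (Sum.elim (fun _ => x)
    (Sum.elim (fun j p ν => VT (D ν) (cv x ν) (tc (fun m => A j m * lfR x j0 (i j)) ν) p)
      fun j p ν => VT (D ν) (cv x ν) (tc (fun m => A j m * lfR x j0 (i' j)) ν) p))
    fun m p ν => (D ν).V (cv x ν) m (X j0 ^ d m) p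

theorem colR_om {e : ℕ} (A : Fin e → TR L n c) (i i' : Fin e → Fin (n + 1))
    (a : (Unit ⊕ (Fin e ⊕ Fin e)) ⊕ Fin c) (p : Fin (n + 1)) :
    colU (omSys D) (qv x) (colE (omSys D) (qv x) j0 (fun j => tq (A j)) i i') j0 a p =
      qm L (colR D x j0 A i i' a p) := by
  have key : ∀ (B : TR L n c) (i : Fin (n + 1)), mulT (tq B) (lf (qv x) j0 i) =
      tq fun m => B m * lfR x j0 i := by
    intro B i
    funext m
    change map (qm L) (B m) * lf (qv x) j0 i = map (qm L) (B m * lfR x j0 i)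
    rw [map_mul, map_lfR]
  rcases a with (_ | (j | j)) | m
  · rfl
  · change VT (omSys D) (qv x) (mulT (tq (A j)) (lf (qv x) j0 (i j))) p = _
    rw [key, VT_om]
    rfl
  · change VT (omSys D) (qv x) (mulT (tq (A j)) (lf (qv x) j0 (i' j))) p = _
    rw [key, VT_om]
    rfl
  · change (omSys D).V (qv x) m (X j0 ^ d m) p = _
    have h : (X j0 ^ d m : MvPolynomial (Fin (n + 1)) (Om L)) = map (qm L) (X j0 ^ d m) := by
      rw [map_pow, map_X]
    rw [h, V_om]
    change _ = qm L fun ν => (D ν).V (cv x ν) m (X j0 ^ d m) p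
    congr 1
    funext ν
    rw [map_pow, map_X]

theorem colR_ev {e : ℕ} (A : Fin e → TR L n c) (i i' : Fin e → Fin (n + 1))
    (a : (Unit ⊕ (Fin e ⊕ Fin e)) ⊕ Fin c) (p : Fin (n + 1)) (ν : ℕ) :
    colU (D ν) (cv x ν) (colE (D ν) (cv x ν) j0 (fun j => tc (A j) ν) i i') j0 a p =
      colR D x j0 A i i' a p ν := by
  have key : ∀ (B : TR L n c) (i : Fin (n + 1)), mulT (tc B ν) (lf (cv x ν) j0 i) =
      tc (fun m => B m * lfR x j0 i) ν := by
    intro B i
    funext m
    change map (ev L ν) (B m) * lf (cv x ν) j0 i = map (ev L ν) (B m * lfR x j0 i)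
    rw [map_mul, map_lfR']
  rcases a with (_ | (j | j)) | m
  · rfl
  · change VT (D ν) (cv x ν) (mulT (tc (A j) ν) (lf (cv x ν) j0 (i j))) p = _
    rw [key]
    rfl
  · change VT (D ν) (cv x ν) (mulT (tc (A j) ν) (lf (cv x ν) j0 (i' j))) p = _
    rw [key]
    rfl
  · rfl

theorem TT_om {e : ℕ} (ε : (Unit ⊕ (Fin e ⊕ Fin e)) ⊕ Fin c ≃ Fin (n + 1))
    (A : Fin e → TR L n c) (i i' : Fin e → Fin (n + 1)) :
    TT (omSys D) (qv x) j0 ε (fun j => tq (A j)) i i' =
      qm L fun ν => TT (D ν) (cv x ν) j0 ε (fun j => tc (A j) ν) i i' := by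
  set M : Matrix ((Unit ⊕ (Fin e ⊕ Fin e)) ⊕ Fin c) ((Unit ⊕ (Fin e ⊕ Fin e)) ⊕ Fin c)
    (∀ ν, L ν) := Matrix.of fun a k => colR D x j0 A i i' k (ε a) with hM
  have h1 : TT (omSys D) (qv x) j0 ε (fun j => tq (A j)) i i' = qm L M.det := by
    rw [RingHom.map_det]
    unfold TT
    congr 1
    ext a k
    exact colR_om D x j0 A i i' k (ε a)
  have h2 : ∀ ν, TT (D ν) (cv x ν) j0 ε (fun j => tc (A j) ν) i i' = M.det ν := by
    intro ν
    change _ = ev L ν M.det
    rw [RingHom.map_det]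
    unfold TT
    congr 1
    ext a k
    exact colR_ev D x j0 A i i' k (ε a) ν
  rw [h1]
  congr 1
  funext ν
  exact (h2 ν).symm

theorem tau_om {e : ℕ} (ε : (Unit ⊕ (Fin e ⊕ Fin e)) ⊕ Fin c ≃ Fin (n + 1))
    (A : Fin e → TR L n c) (i i' : Fin e → Fin (n + 1)) (s : Fin e) (a b b' : Fin (n + 1)) :
    tau (omSys D) (qv x) j0 ε (fun j => tq (A j)) i i' s a b b' =
      qm L fun ν => tau (D ν) (cv x ν) j0 ε (fun j => tc (A j) ν) i i' s a b b' := by
  unfold tau
  rw [TT_om, TT_om, TT_om, ← map_mul, ← map_mul, ← map_mul, ← map_sub, ← map_add]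
  rfl

/-- evaluation -/
theorem eval_om (G : MvPolynomial (Fin (n + 1)) (∀ ν, L ν)) :
    eval (qv x) (map (qm L) G) = qm L fun ν => eval (cv x ν) (map (ev L ν) G) := by
  rw [eval_map]
  have h1 := eval₂_comp_left (qm L) (RingHom.id _) x G
  rw [RingHom.comp_id] at h1
  have h2 : eval₂ (qm L) (qv x) G = qm L (eval₂ (RingHom.id _) x G) := h1.symm
  rw [h2]
  congr 1
  funext ν
  have h3 := eval₂_comp_left (ev L ν) (RingHom.id _) x G
  rw [RingHom.comp_id] at h3
  rw [eval_map]
  exact h3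

/-- the restriction to a line, over the product -/
noncomputable def lineR (G : MvPolynomial (Fin (n + 1)) (∀ ν, L ν))
    (y : Fin (n + 1) → ∀ ν, L ν) : Polynomial (∀ ν, L ν) :=
  aeval (fun p => Polynomial.C (x p) + Polynomial.X * Polynomial.C (y p)) G

theorem map_lineR (G : MvPolynomial (Fin (n + 1)) (∀ ν, L ν)) (y : Fin (n + 1) → ∀ ν, L ν)
    {K : Type} [Field K] (f : (∀ ν, L ν) →+* K) :
    lineP (map f G) (fun j => f (x j)) (fun j => f (y j)) = (lineR x G y).map f := by
  unfold lineP lineR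
  induction G using MvPolynomial.induction_on with
  | C a =>
    rw [map_C, algHom_C, algHom_C]
    simp [Polynomial.algebraMap_eq]
  | add P Q hP hQ => rw [map_add, map_add, map_add, hP, hQ, Polynomial.map_add]
  | mul_X P p hP =>
    rw [map_mul, map_mul, map_mul, hP, map_X, aeval_X, aeval_X, Polynomial.map_mul,
      Polynomial.map_add, Polynomial.map_mul, Polynomial.map_X, Polynomial.map_C,
      Polynomial.map_C]

end

end Pool.Agent.Edge.H52
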