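import Pool.Agent.Lib.MP_c7af3c_ag.SHARP.Base54

/-!
# MP_c7af3c_ag, project EDGE, module ULTRA, part 1: ultraproducts of fields (helper52)
-/

set_option autoImplicit false

namespace Pool.Agent.Edge.H52

open Filter MvPolynomial WithZero Pool.Agent.Gen

/-- the filter -/
noncomputable abbrev UF : Filter ℕ := (hyperfilter ℕ : Ultrafilter ℕ)

theorem uf_em (p : ℕ → Prop) : (∀ᶠ ν in UF, p ν) ∨ ∀ᶠ ν in UF, ¬ p ν :=
  Ultrafilter.em (hyperfilter ℕ) p

theorem uf_not {p : ℕ → Prop} : (∀ᶠ ν in UF, ¬ p ν) ↔ ¬ ∀ᶠ ν in UF, p ν :=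
  Ultrafilter.eventually_not

theorem uf_ge (N : ℕ) : ∀ᶠ ν in UF, N ≤ ν := by
  have h : {ν | ¬ N ≤ ν}.Finite := (Set.finite_lt_nat N).subset fun ν hν => by
    simpa using hν
  have := h.compl_mem_hyperfilter
  filter_upwards [this] with ν hν
  simpa using hν

section

variable (L : ℕ → Type) [∀ ν, Field (L ν)]

/-- the null sequences -/
def nullI : Ideal (∀ ν, L ν) where
  carrier := {f | ∀ᶠ ν in UF, f ν = 0}
  zero_mem' := Eventually.of_forall fun _ => rfl
  add_mem' := fun {f g} hf hg => by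
    filter_upwards [hf, hg] with ν h1 h2
    rw [Pi.add_apply, h1, h2, add_zero]
  smul_mem' := fun c f hf => by
    filter_upwards [hf] with ν h1
    rw [Pi.smul_apply', h1, smul_zero]

theorem mem_nullI {f : ∀ ν, L ν} : f ∈ nullI L ↔ ∀ᶠ ν in UF, f ν = 0 := Iff.rfl

instance nullI_max : (nullI L).IsMaximal := by
  classical
  rw [Ideal.isMaximal_iff]
  refine ⟨?_, ?_⟩
  · intro h
    obtain ⟨ν, hν⟩ := (show ∀ᶠ ν in UF, (1 : ∀ ν, L ν) ν = 0 from h).exists
    exact one_ne_zero hν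
  · intro J f hJ hf hfJ
    have h1 : ∀ᶠ ν in UF, f ν ≠ 0 := uf_not.2 hf
    have h2 : (1 : ∀ ν, L ν) - (fun ν => (f ν)⁻¹) * f ∈ nullI L := by
      rw [mem_nullI]
      filter_upwards [h1] with ν hν
      simp [inv_mul_cancel₀ hν]
    have h3 := J.add_mem (hJ h2) (J.mul_mem_left (fun ν => (f ν)⁻¹) hfJ)
    rwa [sub_add_cancel] at h3

/-- the ultraproduct -/
def Om : Type := (∀ ν, L ν) ⧸ nullI L

noncomputable instance instFieldOm : Field (Om L) := Ideal.Quotient.field (nullI L)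

/-- the class of a sequence -/
noncomputable def qm : (∀ ν, L ν) →+* Om L := Ideal.Quotient.mk (nullI L)

theorem qm_surj : Function.Surjective (qm L) := Ideal.Quotient.mk_surjective

variable {L}

theorem qm_zero {f : ∀ ν, L ν} : qm L f = 0 ↔ ∀ᶠ ν in UF, f ν = 0 :=
  (Ideal.Quotient.eq_zero_iff_mem (I := nullI L) (a := f)).trans Iff.rfl

theorem qm_eq {f g : ∀ ν, L ν} : qm L f = qm L g ↔ ∀ᶠ ν in UF, f ν = g ν := by
  rw [← sub_eq_zero, ← map_sub, qm_zero]
  exact eventually_congr (Eventually.of_forall fun ν => sub_eq_zero)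

theorem qm_ne {f : ∀ ν, L ν} : qm L f ≠ 0 ↔ ∀ᶠ ν in UF, f ν ≠ 0 := by
  rw [Ne, qm_zero, uf_not]

theorem qm_inv (f : ∀ ν, L ν) : qm L (fun ν => (f ν)⁻¹) = (qm L f)⁻¹ := by
  by_cases h : qm L f = 0
  · rw [h, inv_zero, qm_zero]
    filter_upwards [qm_zero.1 h] with ν hν
    rw [hν, inv_zero]
  · refine eq_inv_of_mul_eq_one_left ?_
    rw [← map_mul, ← map_one (qm L), qm_eq]
    filter_upwards [qm_ne.1 h] with ν hν
    exact inv_mul_cancel₀ hν

/-- an additive map with the Leibniz rule -/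
noncomputable def mkD {K : Type} [Field K] (f : K →+ K)
    (h : ∀ a b, f (a * b) = a * f b + b * f a) : Derivation ℤ K K :=
  Derivation.mk' (AddMonoidHom.toIntLinearMap f) h

theorem mkD_apply {K : Type} [Field K] (f : K →+ K)
    (h : ∀ a b, f (a * b) = a * f b + b * f a) (x : K) : mkD f h x = f x := rfl

/-- the additive map of the ultraproduct -/
noncomputable def omA (δ : ∀ ν, L ν →+ L ν) : Om L →+ Om L where
  toFun x := qm L (fun ν => δ ν ((qm_surj L x).choose ν))
  map_zero' := by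
    rw [qm_zero]
    have h := (qm_surj L 0).choose_spec
    filter_upwards [qm_zero.1 h] with ν hν
    rw [hν, map_zero]
  map_add' := by
    intro x y
    rw [← map_add, qm_eq]
    have h : qm L (qm_surj L (x + y)).choose =
        qm L ((qm_surj L x).choose + (qm_surj L y).choose) := by
      rw [map_add, (qm_surj L (x + y)).choose_spec, (qm_surj L x).choose_spec,
        (qm_surj L y).choose_spec]
    filter_upwards [qm_eq.1 h] with ν hν
    rw [hν, Pi.add_apply, map_add]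
    rfl

theorem omA_qm (δ : ∀ ν, L ν →+ L ν) (f : ∀ ν, L ν) :
    omA δ (qm L f) = qm L (fun ν => δ ν (f ν)) := by
  change qm L (fun ν => δ ν ((qm_surj L (qm L f)).choose ν)) = _
  rw [qm_eq]
  filter_upwards [qm_eq.1 (qm_surj L (qm L f)).choose_spec] with ν hν
  rw [hν]

/-- the derivation of the ultraproduct -/
noncomputable def omD (δ : ∀ ν, Derivation ℤ (L ν) (L ν)) : Derivation ℤ (Om L) (Om L) :=
  mkD (omA fun ν => ((δ ν : L ν →ₗ[ℤ] L ν) : L ν →+ L ν)) (by
    intro x y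
    obtain ⟨f, rfl⟩ := qm_surj L x
    obtain ⟨g, rfl⟩ := qm_surj L y
    rw [← map_mul, omA_qm, omA_qm, omA_qm, ← map_mul, ← map_mul, ← map_add]
    congr 1
    funext ν
    exact (δ ν).leibniz (f ν) (g ν))

theorem omD_qm (δ : ∀ ν, Derivation ℤ (L ν) (L ν)) (f : ∀ ν, L ν) :
    omD δ (qm L f) = qm L (fun ν => δ ν (f ν)) := omA_qm _ f

instance instCharZeroOm [∀ ν, CharZero (L ν)] : CharZero (Om L) := by
  refine charZero_of_inj_zero fun n hn => ?_
  have h : qm L (fun ν => (n : L ν)) = 0 := by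
    have : (fun ν => (n : L ν)) = ((n : ∀ ν, L ν)) := rfl
    rw [this, map_natCast, hn]
  obtain ⟨ν, hν⟩ := (qm_zero.1 h).exists
  exact_mod_cast hν

end

end Pool.Agent.Edge.H52
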